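import Pool.Agent.Y223.G.Stm3

/-!
Project G: basic facts on the charts of forms.
-/

set_option autoImplicit false
set_option linter.unusedSectionVars false

namespace Pool.Agent.Y25.G

open Pool.Agent.Y223.G

section forms

variable {K : Type} [Field K] {m : ℕ} (z : Fin (m + 1) → K)

lemma MN_mul {d e : ℕ} {x y : K} (hx : x ∈ MN z d) (hy : y ∈ MN z e) : x * y ∈ MN z (d + e) := by
  obtain ⟨a, ha, rfl⟩ := hx
  obtain ⟨b, hb, rfl⟩ := hy
  refine ⟨fun i => a i + b i, ?_, ?_⟩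
  · rw [Finset.sum_add_distrib, ha, hb]
  · rw [← Finset.prod_mul_distrib]
    exact Finset.prod_congr rfl fun i _ => (pow_add _ _ _).symm

lemma MN_one : (1 : K) ∈ MN z 0 := ⟨fun _ => 0, by simp, by simp⟩

lemma MN_zero {x : K} (hx : x ∈ MN z 0) : x = 1 := by
  obtain ⟨a, ha, rfl⟩ := hx
  have h1 : ∀ i, a i = 0 := by
    intro i
    exact (Finset.sum_eq_zero_iff.1 ha) i (Finset.mem_univ i)
  exact Finset.prod_eq_one fun i _ => by rw [h1 i, pow_zero]

lemma MN_pow_z (i : Fin (m + 1)) (d : ℕ) : z i ^ d ∈ MN z d := by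
  classical
  refine ⟨fun j => if j = i then d else 0, ?_, ?_⟩
  · rw [Finset.sum_ite_eq' Finset.univ i]
    rw [if_pos (Finset.mem_univ i)]
  · rw [Finset.prod_eq_single i]
    · change z i ^ d = z i ^ (if i = i then d else 0)
      rw [if_pos rfl]
    · intro j _ hj
      change z j ^ (if j = i then d else 0) = 1
      rw [if_neg hj, pow_zero]
    · intro h
      exact absurd (Finset.mem_univ i) h

lemma MN_z (i : Fin (m + 1)) : z i ∈ MN z 1 := by
  have := MN_pow_z z i 1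
  rwa [pow_one] at this

lemma MN_succ {d : ℕ} {x : K} (hx : x ∈ MN z (d + 1)) :
    ∃ j, ∃ x' ∈ MN z d, x = z j * x' := by
  classical
  obtain ⟨a, ha, rfl⟩ := hx
  obtain ⟨j, hj⟩ : ∃ j, a j ≠ 0 := by
    by_contra hcon
    push Not at hcon
    rw [Finset.sum_eq_zero fun i _ => hcon i] at ha
    omega
  refine ⟨j, ∏ i, z i ^ (if i = j then a j - 1 else a i), ⟨fun i => if i = j then a j - 1 else a i,
    ?_, rfl⟩, ?_⟩
  · have h1 : ∑ i, (if i = j then a j - 1 else a i) + 1 = ∑ i, a i := by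
      rw [← Finset.add_sum_erase _ _ (Finset.mem_univ j),
        ← Finset.add_sum_erase _ a (Finset.mem_univ j), if_pos rfl]
      have h2 : ∑ i ∈ Finset.univ.erase j, (if i = j then a j - 1 else a i) =
          ∑ i ∈ Finset.univ.erase j, a i :=
        Finset.sum_congr rfl fun i hi => if_neg (Finset.ne_of_mem_erase hi)
      rw [h2]
      omega
    change ∑ i, (if i = j then a j - 1 else a i) = d
    omega
  · rw [← Finset.mul_prod_erase _ _ (Finset.mem_univ j),
      ← Finset.mul_prod_erase _ (fun i => z i ^ (if i = j then a j - 1 else a i))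
        (Finset.mem_univ j), if_pos rfl, ← mul_assoc, ← pow_succ']
    have h2 : ∏ i ∈ Finset.univ.erase j, z i ^ (if i = j then a j - 1 else a i) =
        ∏ i ∈ Finset.univ.erase j, z i ^ a i :=
      Finset.prod_congr rfl fun i hi => by rw [if_neg (Finset.ne_of_mem_erase hi)]
    rw [h2]
    congr 2
    omega

end forms

section FS

variable {k K : Type} [CommRing k] [Field K] [Algebra k K] {m : ℕ} (z : Fin (m + 1) → K)

lemma FS_mul {d e : ℕ} {x y : K} (hx : x ∈ FS k z d) (hy : y ∈ FS k z e) :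
    x * y ∈ FS k z (d + e) := by
  unfold FS at hx hy ⊢
  induction hx using Submodule.span_induction with
  | mem x hx =>
    induction hy using Submodule.span_induction with
    | mem y hy => exact Submodule.subset_span (MN_mul z hx hy)
    | zero => rw [mul_zero]; exact Submodule.zero_mem _
    | add a b _ _ ha hb => rw [mul_add]; exact Submodule.add_mem _ ha hb
    | smul c a _ ha => rw [mul_smul_comm]; exact Submodule.smul_mem _ c ha
  | zero => rw [zero_mul]; exact Submodule.zero_mem _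
  | add a b _ _ ha hb => rw [add_mul]; exact Submodule.add_mem _ ha hb
  | smul c a _ ha => rw [smul_mul_assoc]; exact Submodule.smul_mem _ c ha

lemma FS_one : (1 : K) ∈ FS k z 0 := Submodule.subset_span (MN_one z)

lemma FS_pow {d : ℕ} {x : K} (hx : x ∈ FS k z d) (n : ℕ) : x ^ n ∈ FS k z (d * n) := by
  induction n with
  | zero => rw [pow_zero, mul_zero]; exact FS_one z
  | succ n ih =>
    rw [pow_succ, Nat.mul_succ]
    exact FS_mul z ih hx

end FS

section iter

variable {k K : Type} [CommRing k] [Field K] [Algebra k K]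

/-- The iterates of an automorphism. -/
noncomputable def itA (τ : K ≃ₐ[k] K) : ℕ → (K →ₐ[k] K)
  | 0 => AlgHom.id k K
  | i + 1 => (τ : K →ₐ[k] K).comp (itA τ i)

lemma itA_apply (τ : K ≃ₐ[k] K) (i : ℕ) (x : K) : itA τ i x = τ^[i] x := by
  induction i with
  | zero => rfl
  | succ i ih =>
    rw [Function.iterate_succ_apply', ← ih]
    rfl

lemma it_div (τ : K ≃ₐ[k] K) (i : ℕ) (x y : K) : τ^[i] (x / y) = τ^[i] x / τ^[i] y := by
  rw [← itA_apply, ← itA_apply, ← itA_apply, map_div₀]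

lemma it_mul (τ : K ≃ₐ[k] K) (i : ℕ) (x y : K) : τ^[i] (x * y) = τ^[i] x * τ^[i] y := by
  rw [← itA_apply, ← itA_apply, ← itA_apply, map_mul]

lemma it_pow (τ : K ≃ₐ[k] K) (i : ℕ) (x : K) (n : ℕ) : τ^[i] (x ^ n) = (τ^[i] x) ^ n := by
  rw [← itA_apply, ← itA_apply, map_pow]

lemma it_one (τ : K ≃ₐ[k] K) (i : ℕ) : τ^[i] (1 : K) = 1 := by
  rw [← itA_apply, map_one]

lemma it_prod (τ : K ≃ₐ[k] K) (i : ℕ) {ι : Type} (s : Finset ι) (f : ι → K) :
    τ^[i] (∏ j ∈ s, f j) = ∏ j ∈ s, τ^[i] (f j) := by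
  rw [← itA_apply, map_prod]
  exact Finset.prod_congr rfl fun j _ => itA_apply τ i (f j)

lemma it_ne {τ : K ≃ₐ[k] K} {i : ℕ} {x : K} (hx : x ≠ 0) : τ^[i] x ≠ 0 := by
  rw [← itA_apply]
  exact (map_ne_zero_iff _ (itA τ i).toRingHom.injective).2 hx

/-- The norm. -/
lemma norm_fixed (τ : K ≃ₐ[k] K) {p : ℕ} (hp : 0 < p) (h : ∀ x, τ^[p] x = x) (x : K) :
    τ (∏ i ∈ Finset.range p, τ^[i] x) = ∏ i ∈ Finset.range p, τ^[i] x := by
  rw [map_prod]
  have h1 : ∀ i ∈ Finset.range p, τ (τ^[i] x) = τ^[i + 1] x := fun i _ =>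
    (Function.iterate_succ_apply' _ _ _).symm
  rw [Finset.prod_congr rfl h1]
  obtain ⟨q, rfl⟩ : ∃ q, p = q + 1 := ⟨p - 1, by omega⟩
  rw [Finset.prod_range_succ, Finset.prod_range_succ' (fun i => τ^[i] x), h]
  rfl

end iter

section base

variable {k O K : Type} [CommRing k] [IsDomain k] [CommRing O] [IsDomain O]
    [IsDedekindDomain O] [Field K] [Algebra k O] [Algebra O K] [Algebra k K] [IsScalarTower k O K]
    {p : ℕ} {τ : K ≃ₐ[k] K} {t : O ≃ₐ[k] O}

lemma it_algO (hG : GSet k O K p τ t) (i : ℕ) (o : O) :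
    τ^[i] (algebraMap O K o) = algebraMap O K (t^[i] o) := by
  induction i with
  | zero => rfl
  | succ i ih => rw [Function.iterate_succ_apply', ih, hG.com, Function.iterate_succ_apply']

lemma s_ne (hG : GSet k O K p τ t) {s : k} (hs : s ≠ 0) : algebraMap k K s ≠ 0 :=
  (map_ne_zero_iff _ hG.injk).2 hs

/-- A nonzero constant in the norm of an element of the base. -/
lemma exists_norm (hG : GSet k O K p τ t) {b : O} (hb : b ≠ 0) : ∃ (c : k) (r : O), c ≠ 0 ∧
    algebraMap k O c = b * r := by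
  have hp : 0 < p := hG.pp.pos
  obtain ⟨q, rfl⟩ : ∃ q, p = q + 1 := ⟨p - 1, by omega⟩
  have hfix : t (∏ i ∈ Finset.range (q + 1), t^[i] b) = ∏ i ∈ Finset.range (q + 1), t^[i] b := by
    apply hG.inj
    have h1 : algebraMap O K (∏ i ∈ Finset.range (q + 1), t^[i] b) =
        ∏ i ∈ Finset.range (q + 1), τ^[i] (algebraMap O K b) := by
      rw [map_prod]
      exact Finset.prod_congr rfl fun i _ => (it_algO hG i b).symm
    rw [← hG.com, h1]
    exact norm_fixed τ hp hG.ord _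
  obtain ⟨c, hc⟩ := hG.fix _ hfix
  have hne : (∏ i ∈ Finset.range (q + 1), t^[i] b) ≠ 0 := by
    rw [Finset.prod_ne_zero_iff]
    intro i _ h0
    have h1 := it_algO hG i b
    rw [h0, map_zero] at h1
    exact it_ne ((map_ne_zero_iff _ hG.inj).2 hb) h1
  refine ⟨c, ∏ i ∈ Finset.range q, t^[i + 1] b, ?_, ?_⟩
  · rintro rfl
    rw [map_zero] at hc
    exact hne hc.symm
  · rw [hc, Finset.prod_range_succ', mul_comm]
    rfl

end base

section chart

variable {k O K : Type} [CommRing k] [CommRing O] [Field K] [Algebra k O] [Algebra O K]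
  [Algebra k K] [IsScalarTower k O K]

/-- The chart of a form (degree zero). -/
noncomputable abbrev CF {k : Type} (O : Type) {K : Type} [CommRing k] [CommRing O] [Field K]
    [Algebra k O] [Algebra O K] [Algebra k K] [IsScalarTower k O K] (p : ℕ) (τ : K ≃ₐ[k] K)
    {m : ℕ} (z : Fin (m + 1) → K) (s : k) (d : ℕ) (F : K) : Subalgebra (OL O (K := K) s) K :=
  CC (fun i => AF (OL O (K := K) s) (fun j => τ^[i] (z j)) d (τ^[i] F)) p

variable {p : ℕ} {τ : K ≃ₐ[k] K} {m : ℕ} {z : Fin (m + 1) → K} {s : k} {d : ℕ} {F : K}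

lemma OL_alg (o : O) : algebraMap O K o ∈ OL O (K := K) s := ⟨0, o, by rw [pow_zero, one_mul]⟩

lemma OL_inv (hs : algebraMap k K s ≠ 0) : (algebraMap k K s)⁻¹ ∈ OL O (K := K) s :=
  ⟨1, 1, by rw [pow_one, mul_inv_cancel₀ hs, map_one]⟩

lemma CF_OL {x : K} (hx : x ∈ OL O (K := K) s) : x ∈ CF O p τ z s d F :=
  (CF O p τ z s d F).algebraMap_mem (⟨x, hx⟩ : OL O (K := K) s)

lemma CF_gen {i : ℕ} (hi : i < p) {x : K} (hx : x ∈ MN z d) :
    τ^[i] (x / F) ∈ CF O p τ z s d F := by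
  apply le_CC (fun i => AF (OL O (K := K) s) (fun j => τ^[i] (z j)) d (τ^[i] F)) hi
  apply Algebra.subset_adjoin
  obtain ⟨a, ha, rfl⟩ := hx
  refine ⟨∏ j, (τ^[i] (z j)) ^ a j, ⟨a, ha, rfl⟩, ?_⟩
  rw [it_div, it_prod]
  congr 1
  exact Finset.prod_congr rfl fun j _ => it_pow τ i _ _

/-- Induction on the elements of a chart. -/
lemma CF_ind {P : K → Prop} (hO : ∀ x ∈ OL O (K := K) s, P x)
    (hg : ∀ i < p, ∀ x ∈ MN z d, P (τ^[i] (x / F))) (hadd : ∀ x y, P x → P y → P (x + y))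
    (hmul : ∀ x y, P x → P y → P (x * y)) : ∀ x ∈ CF O p τ z s d F, P x := by
  let S : Subalgebra (OL O (K := K) s) K :=
    { carrier := {x | P x}
      mul_mem' := fun {x y} hx hy => hmul x y hx hy
      add_mem' := fun {x y} hx hy => hadd x y hx hy
      algebraMap_mem' := fun r => hO _ r.2 }
  have hle : CF O p τ z s d F ≤ S := by
    refine iSup_le fun i => ?_
    unfold AF
    rw [Algebra.adjoin_le_iff]
    rintro _ ⟨_, ⟨a, ha, rfl⟩, rfl⟩
    have h1 := hg i i.2 _ ⟨a, ha, rfl⟩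
    have h2 : τ^[i] ((∏ j, z j ^ a j) / F) = (∏ j, (τ^[i] (z j)) ^ a j) / τ^[i] F := by
      rw [it_div, it_prod]
      congr 1
      exact Finset.prod_congr rfl fun j _ => it_pow τ i _ _
    rw [h2] at h1
    exact h1
  exact fun x hx => hle hx

lemma it_mod (h : ∀ x, τ^[p] x = x) (i : ℕ) (x : K) : τ^[i] x = τ^[i % p] x := by
  have h1 : ∀ n : ℕ, ∀ x, τ^[p * n] x = x := by
    intro n
    induction n with
    | zero => intro x; rfl
    | succ n ih =>
      intro x
      rw [Nat.mul_succ, Function.iterate_add_apply, h, ih]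
  conv_lhs => rw [← Nat.mod_add_div i p, Function.iterate_add_apply, h1]

lemma CF_gen' (hp : 0 < p) (h : ∀ x, τ^[p] x = x) (i : ℕ) {x : K} (hx : x ∈ MN z d) :
    τ^[i] (x / F) ∈ CF O p τ z s d F := by
  rw [it_mod h]
  exact CF_gen (Nat.mod_lt _ hp) hx

lemma OL_tau {t : O ≃ₐ[k] O} (hcom : ∀ o, τ (algebraMap O K o) = algebraMap O K (t o)) {x : K}
    (hx : x ∈ OL O (K := K) s) : τ x ∈ OL O (K := K) s := by
  obtain ⟨n, y, h⟩ := hx
  refine ⟨n, t y, ?_⟩
  rw [← hcom, ← h, map_mul, map_pow, AlgEquiv.commutes]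

lemma CF_tau (hp : 0 < p) (h : ∀ x, τ^[p] x = x) {t : O ≃ₐ[k] O}
    (hcom : ∀ o, τ (algebraMap O K o) = algebraMap O K (t o)) :
    ∀ x ∈ CF O p τ z s d F, τ x ∈ CF O p τ z s d F := by
  apply CF_ind
  · intro x hx
    exact CF_OL (OL_tau hcom hx)
  · intro i _ x hx
    rw [← Function.iterate_succ_apply' (⇑τ) i]
    exact CF_gen' hp h _ hx
  · intro x y hx hy
    rw [map_add]
    exact add_mem hx hy
  · intro x y hx hy
    rw [map_mul]
    exact mul_mem hx hy

lemma CF_it (hp : 0 < p) (h : ∀ x, τ^[p] x = x) {t : O ≃ₐ[k] O}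
    (hcom : ∀ o, τ (algebraMap O K o) = algebraMap O K (t o)) (i : ℕ) {x : K}
    (hx : x ∈ CF O p τ z s d F) : τ^[i] x ∈ CF O p τ z s d F := by
  induction i with
  | zero => exact hx
  | succ i ih =>
    rw [Function.iterate_succ_apply']
    exact CF_tau hp h hcom _ ih

lemma mem_res {Y : Type} [Field Y] [Algebra k Y] (ι : Y →ₐ[k] K) (R : Subalgebra k (LP K)) (e : ℤ)
    (y : Y) : hm e y ∈ res ι R ↔ hm e (ι y) ∈ R := by
  unfold res
  rw [Subalgebra.mem_comap]
  have h1 : AddMonoidAlgebra.mapAlgHom (R := k) ℤ ι (hm e y) = hm e (ι y) :=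
    AddMonoidAlgebra.mapAlgHom_single _ _ _
  rw [h1]

lemma mem_GR (hp : 0 < p) (h : ∀ x, τ^[p] x = x) {t : O ≃ₐ[k] O}
    (hcom : ∀ o, τ (algebraMap O K o) = algebraMap O K (t o)) {Y : Type} [Field Y] [Algebra k Y]
    (ι : Y →ₐ[k] K) (𝔓 : Ideal (OL O (K := K) s)) (l : ℕ) (y : Y) :
    hm 0 y ∈ res ι (GR O p τ z s 𝔓 l d F) ↔ ι y ∈ CF O p τ z s d F := by
  rw [mem_res]
  constructor
  · intro h1
    exact RR_mem_C (CF_tau hp h hcom) h1
  · intro h1
    exact RR_c hp h1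

end chart

end Pool.Agent.Y25.G
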