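import Pool.Agent.Y25.G.Base

/-!
Project G: the field of fractions of the charts, and constants of degree one.
-/

set_option autoImplicit false
set_option linter.unusedSectionVars false

namespace Pool.Agent.Y25.G

open Pool.Agent.Y223.G

section quot

variable {k O L Y K : Type} [CommRing k] [IsDomain k] [CommRing O] [IsDomain O]
  [IsDedekindDomain O] [Field L] [Field Y] [Field K] [Algebra k O] [Algebra O K] [Algebra k K]
  [IsScalarTower k O K] [Algebra L K] [Algebra k Y] {ι : Y →ₐ[k] K} {p : ℕ} {τ : K ≃ₐ[k] K}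
  {t : O ≃ₐ[k] O} {m : ℕ} {z : Fin (m + 1) → K}

/-- Every element of `K` is a quotient of elements of the chart. -/
lemma CF_quot (hG : GHyp k O L Y K ι p τ t m z) (s : k) {d : ℕ} (hd : 1 ≤ d) {F : K}
    (hF : F ≠ 0) (x : K) :
    ∃ c c', c ∈ CF O p τ z s d F ∧ c' ∈ CF O p τ z s d F ∧ c' ≠ 0 ∧ x = c / c' := by
  have hp : 0 < p := hG.pp.pos
  let S : IntermediateField L K :=
    { carrier := {x | ∃ c c', c ∈ CF O p τ z s d F ∧ c' ∈ CF O p τ z s d F ∧ c' ≠ 0 ∧ x = c / c'}
      mul_mem' := by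
        rintro x y ⟨a, a', ha, ha', h0, rfl⟩ ⟨b, b', hb, hb', h0', rfl⟩
        refine ⟨a * b, a' * b', mul_mem ha hb, mul_mem ha' hb', mul_ne_zero h0 h0', ?_⟩
        rw [div_mul_div_comm]
      add_mem' := by
        rintro x y ⟨a, a', ha, ha', h0, rfl⟩ ⟨b, b', hb, hb', h0', rfl⟩
        refine ⟨a * b' + a' * b, a' * b', add_mem (mul_mem ha hb') (mul_mem ha' hb),
          mul_mem ha' hb', mul_ne_zero h0 h0', ?_⟩
        rw [div_add_div _ _ h0 h0']
      algebraMap_mem' := by
        intro r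
        obtain ⟨a, b, hb, h⟩ := hG.lf r
        have hb0 : algebraMap O K b ≠ 0 := (map_ne_zero_iff _ hG.inj).2 hb
        exact ⟨algebraMap O K a, algebraMap O K b, CF_OL (OL_alg a), CF_OL (OL_alg b), hb0,
          by rw [eq_div_iff hb0, h]⟩
      inv_mem' := by
        rintro x ⟨a, a', ha, ha', h0, rfl⟩
        by_cases h : a = 0
        · refine ⟨0, 1, zero_mem _, one_mem _, one_ne_zero, ?_⟩
          rw [h]
          simp
        · exact ⟨a', a, ha', ha, h, inv_div _ _⟩ }
  have hle : IntermediateField.adjoin L {y : K | ∃ (i : ℕ) (j : Fin (m + 1)),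
      y = τ^[i] (z j / z 0)} ≤ S := by
    rw [IntermediateField.adjoin_le_iff]
    rintro _ ⟨i, j, rfl⟩
    have h1 : z j * z 0 ^ (d - 1) ∈ MN z d := by
      have := MN_mul z (MN_z z j) (MN_pow_z z 0 (d - 1))
      rwa [Nat.add_sub_cancel' hd] at this
    have h0 : z 0 ^ d / F ≠ 0 := div_ne_zero (pow_ne_zero _ (hG.z0 0)) hF
    refine ⟨τ^[i] (z j * z 0 ^ (d - 1) / F), τ^[i] (z 0 ^ d / F), CF_gen' hp hG.ord i h1,
      CF_gen' hp hG.ord i (MN_pow_z z 0 d), it_ne h0, ?_⟩
    rw [← it_div]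
    congr 1
    obtain ⟨e, rfl⟩ : ∃ e, d = e + 1 := ⟨d - 1, by omega⟩
    rw [Nat.add_sub_cancel]
    have hz : z 0 ≠ 0 := hG.z0 0
    field_simp
    ring
  rw [hG.gen] at hle
  exact hle IntermediateField.mem_top

end quot

/-- **The field of fractions of the charts, and constants of degree one.** -/
theorem gfr : S_GFR := by
  intro k O L Y K _ _ _ _ _ _ _ _ _ _ _ _ _ _ ι p τ t m z hG s 𝔓 l hs h𝔓 d F hd hF hF0
  have hp : 0 < p := hG.pp.pos
  constructor
  · intro x
    obtain ⟨c, c', hc, hc', h0, hx⟩ := CF_quot hG s hd hF0 (ι x)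
    obtain ⟨q, rfl⟩ : ∃ q, p = q + 1 := ⟨p - 1, by omega⟩
    obtain ⟨y', hy'⟩ := (hG.fixK _).1 (norm_fixed τ hp hG.ord c')
    have hN : (∏ i ∈ Finset.range (q + 1), τ^[i] c') ∈ CF O (q + 1) τ z s d F :=
      prod_mem fun i _ => CF_it hp hG.ord hG.com i hc'
    have hN0 : (∏ i ∈ Finset.range (q + 1), τ^[i] c') ≠ 0 := by
      rw [Finset.prod_ne_zero_iff]
      exact fun i _ => it_ne h0
    have hy0 : y' ≠ 0 := by
      rintro rfl
      rw [map_zero] at hy'
      exact hN0 hy'.symm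
    refine ⟨x * y', y', ?_, ?_, hy0, ?_⟩
    · rw [mem_GR hp hG.ord hG.com, map_mul, hx, hy', Finset.prod_range_succ']
      have h1 : c / c' * ((∏ i ∈ Finset.range q, τ^[i + 1] c') * τ^[0] c') =
          c * ∏ i ∈ Finset.range q, τ^[i + 1] c' := by
        rw [Function.iterate_zero_apply]
        field_simp
      rw [h1]
      exact mul_mem hc (prod_mem fun i _ => CF_it hp hG.ord hG.com _ hc')
    · rw [mem_GR hp hG.ord hG.com, hy']
      exact hN
    · rw [mul_div_cancel_right₀ _ hy0]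
  · obtain ⟨e, he, he0⟩ := Submodule.exists_mem_ne_zero_of_ne_bot h𝔓
    obtain ⟨n, y, hy⟩ := e.2
    have hs0 : algebraMap k K s ≠ 0 := s_ne hG.toGSet hs
    have hy0 : y ≠ 0 := by
      rintro rfl
      rw [map_zero] at hy
      rcases mul_eq_zero.1 hy with h | h
      · exact pow_ne_zero _ hs0 h
      · exact he0 (Subtype.ext h)
    obtain ⟨c, r, hc, hcr⟩ := exists_norm hG.toGSet hy0
    refine ⟨c, hc, ?_⟩
    rw [mem_res, AlgHom.commutes]
    have h1 : algebraMap k K c = algebraMap (OL O (K := K) s) K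
        (e * ⟨algebraMap k K s ^ n * algebraMap O K r, mul_mem
          (pow_mem ((OL O (K := K) s).algebraMap_mem s) n) (OL_alg r)⟩) := by
      change algebraMap k K c = (e : K) * (algebraMap k K s ^ n * algebraMap O K r)
      rw [IsScalarTower.algebraMap_apply k O K, hcr, map_mul, ← hy]
      ring
    rw [h1]
    exact RR_e (Ideal.mul_mem_right _ _ he)

end Pool.Agent.Y25.G
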