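import Pool.Agent.Y25.G.Gfr

/-!
Project G: the generic fibre.
-/

set_option autoImplicit false
set_option linter.unusedSectionVars false

namespace Pool.Agent.Y25.G

open Pool.Agent.Y223.G

section TT

variable {k K : Type} (L : Type) [CommRing k] [Field L] [Field K] [Algebra k K] [Algebra L K]

/-- The products of the conjugates of the forms of degree `d`. -/
def TT {k K : Type} (L : Type) [CommRing k] [Field L] [Field K] [Algebra k K] [Algebra L K]
    (p : ℕ) (τ : K ≃ₐ[k] K) {m : ℕ} (z : Fin (m + 1) → K) (d : ℕ) : Submodule L K :=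
  Submodule.span L {w | ∃ x : Fin p → K, (∀ i, x i ∈ MN z d) ∧ w = ∏ i : Fin p, τ^[i] (x i)}

/-- The products of the conjugates of the coordinates. -/
def SG {k K : Type} (L : Type) [CommRing k] [Field L] [Field K] [Algebra k K] [Algebra L K]
    (p : ℕ) (τ : K ≃ₐ[k] K) {m : ℕ} (z : Fin (m + 1) → K) : Submodule L K :=
  Submodule.span L (Set.range fun J : Fin p → Fin (m + 1) => ∏ i : Fin p, τ^[i] (z (J i)))

variable {p : ℕ} {τ : K ≃ₐ[k] K} {m : ℕ} {z : Fin (m + 1) → K}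

lemma TT_mul (d e : ℕ) : TT L p τ z d * TT L p τ z e ≤ TT L p τ z (d + e) := by
  unfold TT
  rw [Submodule.span_mul_span, Submodule.span_le]
  rintro _ ⟨_, ⟨x, hx, rfl⟩, _, ⟨y, hy, rfl⟩, rfl⟩
  apply Submodule.subset_span
  refine ⟨fun i => x i * y i, fun i => MN_mul z (hx i) (hy i), ?_⟩
  change (∏ i : Fin p, τ^[i] (x i)) * (∏ i : Fin p, τ^[i] (y i)) = _
  rw [← Finset.prod_mul_distrib]
  exact Finset.prod_congr rfl fun i _ => (it_mul τ i _ _).symm

lemma TT_one : (1 : K) ∈ TT L p τ z 0 := by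
  apply Submodule.subset_span
  refine ⟨fun _ => 1, fun _ => MN_one z, ?_⟩
  exact (Finset.prod_eq_one (f := fun i : Fin p => τ^[i] (1 : K))
    fun i _ => it_one τ i).symm

lemma TT_le (d : ℕ) : TT L p τ z d ≤ SG L p τ z ^ d := by
  induction d with
  | zero =>
    unfold TT
    rw [Submodule.span_le, pow_zero]
    rintro _ ⟨x, hx, rfl⟩
    have h1 : ∏ i : Fin p, τ^[i] (x i) = 1 :=
      Finset.prod_eq_one fun i _ => by rw [MN_zero z (hx i), it_one]
    rw [h1]
    exact Submodule.one_le.1 le_rfl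
  | succ d ih =>
    unfold TT
    rw [Submodule.span_le, pow_succ']
    rintro _ ⟨x, hx, rfl⟩
    choose J x' hx' he using fun i => MN_succ z (hx i)
    have h1 : ∏ i : Fin p, τ^[i] (x i) =
        (∏ i : Fin p, τ^[i] (z (J i))) * ∏ i : Fin p, τ^[i] (x' i) := by
      rw [← Finset.prod_mul_distrib]
      exact Finset.prod_congr rfl fun i _ => by rw [he i, it_mul]
    rw [h1]
    exact Submodule.mul_mem_mul (Submodule.subset_span ⟨J, rfl⟩)
      (ih (Submodule.subset_span ⟨x', hx', rfl⟩))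

lemma le_TT (d : ℕ) : SG L p τ z ^ d ≤ TT L p τ z d := by
  induction d with
  | zero =>
    rw [pow_zero, Submodule.one_le]
    exact TT_one L
  | succ d ih =>
    rw [pow_succ]
    have h1 : SG L p τ z ≤ TT L p τ z 1 := by
      unfold SG
      rw [Submodule.span_le]
      rintro _ ⟨J, rfl⟩
      exact Submodule.subset_span ⟨fun i => z (J i), fun i => MN_z z (J i), rfl⟩
    exact le_trans (mul_le_mul' ih h1) (TT_mul L d 1)

/-- Products of the conjugates of forms. -/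
lemma prod_TT (hk : ∀ c : k, ∃ x : L, algebraMap L K x = algebraMap k K c) {d : ℕ}
    (x : Fin p → K) (hx : ∀ i, x i ∈ FS k z d) : ∏ i : Fin p, τ^[i] (x i) ∈ TT L p τ z d := by
  classical
  have h1 : ∀ i, ∃ (n : ℕ) (f : Fin n → k) (g : Fin n → MN z d),
      ∑ j, f j • ((g j : K)) = x i := fun i => Submodule.mem_span_set'.1 (hx i)
  choose n f g hfg using h1
  have h2 : ∀ i : Fin p, τ^[i] (x i) =
      ∑ j : Fin (n i), algebraMap k K (f i j) * τ^[i] (g i j : K) := by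
    intro i
    rw [← hfg i, ← itA_apply, map_sum]
    refine Finset.sum_congr rfl fun j _ => ?_
    rw [map_smul, Algebra.smul_def, itA_apply]
  rw [Finset.prod_congr rfl fun i _ => h2 i, Finset.prod_univ_sum]
  refine Submodule.sum_mem _ fun φ _ => ?_
  rw [Finset.prod_mul_distrib]
  choose l hl using hk
  have h3 : ∏ i : Fin p, algebraMap k K (f i (φ i)) =
      algebraMap L K (∏ i : Fin p, l (f i (φ i))) := by
    rw [map_prod]
    exact Finset.prod_congr rfl fun i _ => (hl _).symm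
  rw [h3, ← Algebra.smul_def]
  exact Submodule.smul_mem _ _ (Submodule.subset_span ⟨fun i => (g i (φ i) : K),
    fun i => (g i (φ i)).2, rfl⟩)

end TT

section gen

variable {k O L Y K : Type} [CommRing k] [IsDomain k] [CommRing O] [IsDomain O]
  [IsDedekindDomain O] [Field L] [Field Y] [Field K] [Algebra k O] [Algebra O K] [Algebra k K]
  [IsScalarTower k O K] [Algebra L K] [Algebra k Y] {ι : Y →ₐ[k] K} {p : ℕ} {τ : K ≃ₐ[k] K}
  {t : O ≃ₐ[k] O} {m : ℕ} {z : Fin (m + 1) → K}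

lemma k_L (hG : GHyp k O L Y K ι p τ t m z) (c : k) :
    ∃ x : L, algebraMap L K x = algebraMap k K c := by
  obtain ⟨x, hx⟩ := hG.lo (algebraMap k O c)
  exact ⟨x, by rw [hx, ← IsScalarTower.algebraMap_apply k O K]⟩

lemma OL_L (hG : GHyp k O L Y K ι p τ t m z) {s : k} (hs : s ≠ 0) {g : K}
    (hg : g ∈ OL O (K := K) s) : ∃ x : L, algebraMap L K x = g := by
  obtain ⟨n, y, h⟩ := hg
  obtain ⟨a, ha⟩ := k_L hG s
  obtain ⟨b, hb⟩ := hG.lo y
  have hs0 : algebraMap k K s ≠ 0 := s_ne hG.toGSet hs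
  refine ⟨(a ^ n)⁻¹ * b, ?_⟩
  rw [map_mul, map_inv₀, map_pow, ha, hb, ← h, ← mul_assoc,
    inv_mul_cancel₀ (pow_ne_zero _ hs0), one_mul]

lemma pow_SG (hG : GHyp k O L Y K ι p τ t m z) {M₀ : Submodule k Y}
    (hM : Submodule.span L (ι '' (M₀ : Set Y)) = SG L p τ z) (n : ℕ) :
    ∀ x ∈ M₀ ^ n, ι x ∈ SG L p τ z ^ n := by
  induction n with
  | zero =>
    intro x hx
    rw [pow_zero, Submodule.mem_one] at hx
    obtain ⟨c, rfl⟩ := hx
    rw [AlgHom.commutes, pow_zero, Submodule.mem_one]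
    exact k_L hG c
  | succ n ih =>
    intro x hx
    rw [pow_succ] at hx ⊢
    induction hx using Submodule.mul_induction_on' with
    | mem_mul_mem a ha b hb =>
      rw [map_mul]
      refine Submodule.mul_mem_mul (ih a ha) ?_
      rw [← hM]
      exact Submodule.subset_span ⟨b, hb, rfl⟩
    | add a _ b _ ha hb =>
      rw [map_add]
      exact Submodule.add_mem _ ha hb

lemma SG_pow {M₀ : Submodule k Y}
    (hM : Submodule.span L (ι '' (M₀ : Set Y)) = SG L p τ z) (n : ℕ) :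
    SG L p τ z ^ n ≤ Submodule.span L (ι '' ((M₀ ^ n : Submodule k Y) : Set Y)) := by
  induction n with
  | zero =>
    rw [pow_zero, Submodule.one_le]
    apply Submodule.subset_span
    refine ⟨1, ?_, map_one ι⟩
    rw [pow_zero]
    exact Submodule.one_le.1 le_rfl
  | succ n ih =>
    rw [pow_succ, ← hM]
    rw [← hM] at ih
    refine le_trans (mul_le_mul' ih le_rfl) ?_
    rw [Submodule.span_mul_span, Submodule.span_le]
    rintro _ ⟨_, ⟨a, ha, rfl⟩, _, ⟨b, hb, rfl⟩, rfl⟩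
    apply Submodule.subset_span
    refine ⟨a * b, ?_, map_mul ι a b⟩
    rw [pow_succ]
    exact Submodule.mul_mem_mul ha hb

lemma T_sat (hD : S_DSC) (hG : GHyp k O L Y K ι p τ t m z) {M₀ : Submodule k Y}
    (hM : Submodule.span L (ι '' (M₀ : Set Y)) = SG L p τ z) (n : ℕ) (y : Y)
    (hy : ι y ∈ TT L p τ z n) : y ∈ sat (M₀ ^ n) :=
  hD k O L Y K ι p τ t m z hG (M₀ ^ n) y (SG_pow hM n (TT_le L n hy))

lemma T_frac (hG : GHyp k O L Y K ι p τ t m z) {s : k} (hs : s ≠ 0) {d : ℕ} {F : K}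
    (w : K) (hw : w ∈ TT L p τ z d) : ∃ b : O, b ≠ 0 ∧
      algebraMap O K b * (w / ((∏ i : Fin p, τ^[i] F) * algebraMap k K s)) ∈
        CF O p τ z s d F := by
  unfold TT at hw
  induction hw using Submodule.span_induction with
  | mem w hw =>
    obtain ⟨x, hx, rfl⟩ := hw
    refine ⟨1, one_ne_zero, ?_⟩
    have h1 : (∏ i : Fin p, τ^[i] (x i)) / ((∏ i : Fin p, τ^[i] F) * algebraMap k K s) =
        (∏ i : Fin p, τ^[i] (x i / F)) * (algebraMap k K s)⁻¹ := by
      rw [Finset.prod_congr rfl fun (i : Fin p) _ => it_div τ i (x i) F, Finset.prod_div_distrib,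
        div_mul_eq_div_div, div_eq_mul_inv _ (algebraMap k K s)]
    rw [map_one, one_mul, h1]
    exact mul_mem (prod_mem fun i _ => CF_gen i.2 (hx i)) (CF_OL (OL_inv (s_ne hG.toGSet hs)))
  | zero => exact ⟨1, one_ne_zero, by rw [zero_div, mul_zero]; exact zero_mem _⟩
  | add w w' _ _ h h' =>
    obtain ⟨b, hb, h⟩ := h
    obtain ⟨b', hb', h'⟩ := h'
    refine ⟨b * b', mul_ne_zero hb hb', ?_⟩
    have h1 := add_mem (mul_mem (CF_OL (OL_alg b')) h) (mul_mem (CF_OL (OL_alg b)) h')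
    rw [map_mul, add_div]
    have h2 : algebraMap O K b * algebraMap O K b' *
        (w / ((∏ i : Fin p, τ^[i] F) * algebraMap k K s) +
          w' / ((∏ i : Fin p, τ^[i] F) * algebraMap k K s)) =
        algebraMap O K b' * (algebraMap O K b *
          (w / ((∏ i : Fin p, τ^[i] F) * algebraMap k K s))) +
        algebraMap O K b * (algebraMap O K b' *
          (w' / ((∏ i : Fin p, τ^[i] F) * algebraMap k K s))) := by ring
    rw [h2]
    exact h1
  | smul r w _ h =>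
    obtain ⟨b, hb, h⟩ := h
    obtain ⟨a, b', hb', ha⟩ := hG.lf r
    refine ⟨b * b', mul_ne_zero hb hb', ?_⟩
    have h1 := mul_mem (CF_OL (OL_alg a)) h
    have h2 : algebraMap O K (b * b') *
        (r • w / ((∏ i : Fin p, τ^[i] F) * algebraMap k K s)) =
        algebraMap O K a * (algebraMap O K b *
          (w / ((∏ i : Fin p, τ^[i] F) * algebraMap k K s))) := by
      rw [Algebra.smul_def, map_mul, ← ha]
      ring
    rw [h2]
    exact h1

/-- The powers of the norm of a form. -/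
lemma NF_pow (hG : GHyp k O L Y K ι p τ t m z) {d : ℕ} {F : K} (hF : F ∈ FS k z d) (N : ℕ) :
    (∏ i : Fin p, τ^[i] F) ^ N ∈ TT L p τ z (d * N) := by
  have h1 := prod_TT L (p := p) (τ := τ) (k_L hG) (fun _ => F ^ N) fun _ => FS_pow z hF N
  rw [Finset.prod_congr rfl fun (i : Fin p) _ => it_pow τ i F N, Finset.prod_pow] at h1
  exact h1

lemma CF_TT (hG : GHyp k O L Y K ι p τ t m z) {s : k} (hs : s ≠ 0) {d : ℕ} {F : K}
    (hF : F ∈ FS k z d) (hF0 : F ≠ 0) (g : K) (hg : g ∈ CF O p τ z s d F) :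
    ∃ N₀ : ℕ, ∀ N, N₀ ≤ N → (∏ i : Fin p, τ^[i] F) ^ N * g ∈ TT L p τ z (d * N) := by
  classical
  refine CF_ind (P := fun g => ∃ N₀ : ℕ, ∀ N, N₀ ≤ N →
    (∏ i : Fin p, τ^[i] F) ^ N * g ∈ TT L p τ z (d * N)) ?_ ?_ ?_ ?_ g hg
  · intro x hx
    obtain ⟨l, rfl⟩ := OL_L hG hs hx
    refine ⟨0, fun N _ => ?_⟩
    rw [mul_comm _ (algebraMap L K l), ← Algebra.smul_def]
    exact Submodule.smul_mem _ _ (NF_pow hG hF N)
  · intro i hi x hx
    refine ⟨1, fun N hN => ?_⟩
    obtain ⟨N, rfl⟩ : ∃ N', N = N' + 1 := ⟨N - 1, by omega⟩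
    have h1 : (∏ j : Fin p, τ^[j] F) * τ^[i] (x / F) =
        ∏ j : Fin p, τ^[j] (if j = ⟨i, hi⟩ then x else F) := by
      rw [← Finset.mul_prod_erase Finset.univ (fun j : Fin p => τ^[j] F)
          (Finset.mem_univ (⟨i, hi⟩ : Fin p)),
        ← Finset.mul_prod_erase Finset.univ
          (fun j : Fin p => τ^[j] (if j = ⟨i, hi⟩ then x else F))
          (Finset.mem_univ (⟨i, hi⟩ : Fin p)), if_pos rfl]
      have h2 : ∏ j ∈ Finset.univ.erase (⟨i, hi⟩ : Fin p),
          τ^[j] (if j = ⟨i, hi⟩ then x else F) =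
          ∏ j ∈ Finset.univ.erase (⟨i, hi⟩ : Fin p), τ^[j] F :=
        Finset.prod_congr rfl fun j hj => by rw [if_neg (Finset.ne_of_mem_erase hj)]
      rw [h2]
      change τ^[i] F * _ * _ = τ^[i] x * _
      rw [mul_right_comm, ← it_mul, mul_div_cancel₀ _ hF0]
    rw [pow_succ, mul_assoc, h1, Nat.mul_succ]
    refine TT_mul L (d * N) d (Submodule.mul_mem_mul (NF_pow hG hF N) ?_)
    apply prod_TT L (k_L hG)
    intro j
    split_ifs
    · exact Submodule.subset_span hx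
    · exact hF
  · rintro x y ⟨N₁, h₁⟩ ⟨N₂, h₂⟩
    refine ⟨max N₁ N₂, fun N hN => ?_⟩
    rw [mul_add]
    exact Submodule.add_mem _ (h₁ N (le_trans (le_max_left _ _) hN))
      (h₂ N (le_trans (le_max_right _ _) hN))
  · rintro x y ⟨N₁, h₁⟩ ⟨N₂, h₂⟩
    refine ⟨N₁ + N₂, fun N hN => ?_⟩
    obtain ⟨N', rfl⟩ : ∃ N', N = N₁ + N' := ⟨N - N₁, by omega⟩
    have h3 := Submodule.mul_mem_mul (h₁ N₁ le_rfl) (h₂ N' (by omega))
    have h4 := TT_mul L _ _ h3
    rw [← Nat.mul_add] at h4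
    have h5 : (∏ i : Fin p, τ^[i] F) ^ (N₁ + N') * (x * y) =
        (∏ i : Fin p, τ^[i] F) ^ N₁ * x * ((∏ i : Fin p, τ^[i] F) ^ N' * y) := by
      rw [pow_add]
      ring
    rw [h5]
    exact h4

end gen

/-- **The generic fibre.** -/
theorem gmo : S_DSC → S_GMO := by
  intro hD k O L Y K _ _ _ _ _ _ _ _ _ _ _ _ _ _ ι p τ t m z hG M₀ hM s 𝔓 l hs d F hd hF hF0 h hh
  have hp : 0 < p := hG.pp.pos
  obtain ⟨σ, hσ⟩ := k_L hG s
  refine ⟨?_, ?_, ?_⟩
  · apply T_sat hD hG hM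
    have h1 := NF_pow hG hF 1
    rw [pow_one, mul_one] at h1
    rw [hh, mul_comm, ← hσ, ← Algebra.smul_def]
    exact Submodule.smul_mem _ _ h1
  · intro x hx
    obtain ⟨b, hb, h1⟩ := T_frac hG hs (F := F) (ι x) (le_TT L d (pow_SG hG hM d x hx))
    obtain ⟨c, r, hc, hcr⟩ := exists_norm hG.toGSet hb
    refine ⟨c, hc, ?_⟩
    rw [mem_GR hp hG.ord hG.com, map_smul, map_div₀, hh, Algebra.smul_def,
      IsScalarTower.algebraMap_apply k O K, hcr, map_mul, mul_comm (algebraMap O K b), mul_assoc]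
    exact mul_mem (CF_OL (OL_alg r)) h1
  · intro f hf
    rw [mem_GR hp hG.ord hG.com] at hf
    obtain ⟨N₀, hN⟩ := CF_TT hG hs hF hF0 _ hf
    refine ⟨N₀, fun N hN' => ?_⟩
    apply T_sat hD hG hM
    have h1 : ι (h ^ N * f) = σ ^ N • ((∏ i : Fin p, τ^[i] F) ^ N * ι f) := by
      rw [map_mul, map_pow, hh, Algebra.smul_def, map_pow, hσ, mul_pow]
      ring
    rw [h1]
    exact Submodule.smul_mem _ _ (hN N hN')

end Pool.Agent.Y25.G
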